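import Pool.Agent.H85.LSP.Nr

/-!
# LSP: avoidance with lacunary frequencies
-/

set_option autoImplicit false

namespace Pool.LSP

open Finset

theorem avo_pos_le {ι : Type} (S : Finset ι) (f : ι → ℝ) (h : ∀ i ∈ S, 0 < f i) :
    ∃ δ : ℝ, 0 < δ ∧ ∀ i ∈ S, δ ≤ f i := by
  classical
  induction S using Finset.induction_on with
  | empty => exact ⟨1, one_pos, by simp⟩
  | insert a s ha ih =>
    obtain ⟨δ, h1, h2⟩ := ih (fun i hi => h i (mem_insert_of_mem hi))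
    refine ⟨min δ (f a), lt_min h1 (h a (mem_insert_self a s)), ?_⟩
    intro i hi
    rcases mem_insert.1 hi with rfl | hi
    · exact min_le_right _ _
    · exact (min_le_left _ _).trans (h2 i hi)

theorem avo_ge_mem {ι : Type} (S : Finset ι) (f : ι → ℝ) :
    ∃ B : ℝ, 0 ≤ B ∧ ∀ i ∈ S, f i ≤ B := by
  classical
  induction S using Finset.induction_on with
  | empty => exact ⟨0, le_rfl, by simp⟩
  | insert a s ha ih =>
    obtain ⟨δ, h1, h2⟩ := ih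
    refine ⟨max δ (f a), h1.trans (le_max_left _ _), ?_⟩
    intro i hi
    rcases mem_insert.1 hi with rfl | hi
    · exact le_max_right _ _
    · exact (h2 i hi).trans (le_max_left _ _)

theorem avo_grow {w : ℤ → ℂ} {lam : ℝ} {j₀ : ℤ} (hl : 1 < lam)
    (hg : ∀ j, j₀ ≤ j → lam * ‖w j‖ ≤ ‖w (j + 1)‖) (i : ℤ) (hi : j₀ ≤ i) (n : ℕ) :
    lam ^ n * ‖w i‖ ≤ ‖w (i + n)‖ := by
  induction n with
  | zero => simp
  | succ n ih =>
    have h := hg (i + n) (by omega)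
    have h0 : 0 < lam := by linarith
    have e : i + ((n + 1 : ℕ) : ℤ) = i + n + 1 := by push_cast; ring
    rw [e]
    calc lam ^ (n + 1) * ‖w i‖ = lam * (lam ^ n * ‖w i‖) := by ring
      _ ≤ lam * ‖w (i + n)‖ := by gcongr
      _ ≤ ‖w (i + n + 1)‖ := h

theorem avo_block {w : ℤ → ℂ} {lam : ℝ} {j₀ : ℤ} (hl : 1 < lam)
    (hg : ∀ j, j₀ ≤ j → lam * ‖w j‖ ≤ ‖w (j + 1)‖) (B : Finset ℤ) (hB : ∀ j ∈ B, j₀ ≤ j)
    {X q : ℝ} {M : ℕ} (h1 : ∀ j ∈ B, X < ‖w j‖) (h2 : ∀ j ∈ B, ‖w j‖ ≤ q * X) (hX : 0 < X)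
    (hq : q ≤ lam ^ M) : B.card ≤ M := by
  by_contra hc
  push Not at hc
  have hne : B.Nonempty := card_pos.1 (by omega)
  obtain ⟨a, ha, ha'⟩ : ∃ a ∈ B, ∀ x ∈ B, a ≤ x := ⟨_, B.min'_mem hne, fun x hx => B.min'_le x hx⟩
  obtain ⟨b, hb, hb'⟩ : ∃ a ∈ B, ∀ x ∈ B, x ≤ a := ⟨_, B.max'_mem hne, fun x hx => B.le_max' x hx⟩
  have hab : a ≤ b := ha' b hb
  have hsub : B ⊆ Finset.Icc a b := fun x hx => mem_Icc.2 ⟨ha' x hx, hb' x hx⟩
  have hcard := card_le_card hsub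
  rw [Int.card_Icc] at hcard
  obtain ⟨n, hn⟩ := Int.eq_ofNat_of_zero_le (show 0 ≤ b - a by omega)
  have hbn : b = a + n := by omega
  have hMn : M ≤ n := by omega
  have h3 := avo_grow hl hg a (hB a ha) n
  rw [← hbn] at h3
  have h0 : 0 < lam := by linarith
  have h4 : lam ^ M ≤ lam ^ n := pow_le_pow_right₀ hl.le hMn
  have h5 := h1 a ha
  have h6 := h2 b hb
  have hp : 0 < lam ^ n := pow_pos h0 n
  have h7 : lam ^ M * X < lam ^ n * ‖w a‖ := by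
    calc lam ^ M * X ≤ lam ^ n * X := by gcongr
      _ < lam ^ n * ‖w a‖ := by gcongr
  have h8 : q * X ≤ lam ^ M * X := by gcongr
  linarith

theorem avo_qq_pos (m : ℕ) : 0 < qq m := by
  unfold qq
  positivity

theorem avo_qq_le {m : ℕ} {N : ℕ} (h : m + 1 ≤ N) : qq m ≤ 32 * (N : ℝ) ^ 6 ∧
    qq m ^ 2 ≤ 1024 * (N : ℝ) ^ 6 := by
  have hN : (1 : ℝ) ≤ N := by exact_mod_cast (by omega : 1 ≤ N)
  have hm : (m : ℝ) + 1 ≤ N := by exact_mod_cast h
  have h0 : (0 : ℝ) ≤ (m : ℝ) + 1 := by positivity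
  have h3 : ((m : ℝ) + 1) ^ 3 ≤ (N : ℝ) ^ 3 := by gcongr
  have h6 : (N : ℝ) ^ 3 ≤ (N : ℝ) ^ 6 := pow_le_pow_right₀ hN (by norm_num)
  have h36 : (((m : ℝ) + 1) ^ 3) ^ 2 ≤ ((N : ℝ) ^ 3) ^ 2 := by gcongr
  have e6 : ((N : ℝ) ^ 3) ^ 2 = (N : ℝ) ^ 6 := by ring
  unfold qq
  constructor
  · linarith
  · have e : (32 * ((m : ℝ) + 1) ^ 3) ^ 2 = 1024 * (((m : ℝ) + 1) ^ 3) ^ 2 := by ring
    rw [e]
    linarith

theorem t_avo (hGEN : GENStmt) (hCON : CONStmt) : AVOStmt := by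
  classical
  intro w lam C K j₀ hl hw0 hg hC
  have h0 : 0 < lam := by linarith
  obtain ⟨j₁, hj₁, hj₁'⟩ : ∃ j₁ : ℕ, j₀ ≤ j₁ ∧ 1 ≤ j₁ := ⟨max j₀.toNat 1, by omega, by omega⟩
  obtain ⟨B, hB0, hB⟩ := avo_ge_mem (Finset.Icc (0 : ℤ) j₁) (fun j => ‖w j‖)
  have hwp : 0 < ‖w j₁‖ := norm_pos_iff.2 (hw0 _ (by omega))
  obtain ⟨n, hn⟩ := pow_unbounded_of_one_lt (max (max C B) 1 / ‖w j₁‖) hl
  rw [div_lt_iff₀ hwp] at hn
  have hgr := avo_grow hl hg j₁ hj₁ n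
  set R₁ : ℕ := j₁ + n with hR₁
  have hcast : ((j₁ : ℤ) + n) = ((R₁ : ℕ) : ℤ) := by rw [hR₁]; push_cast; rfl
  rw [hcast] at hgr
  set W : ℝ := ‖w R₁‖ with hW
  have hW1 : max (max C B) 1 < W := by
    rw [mul_comm] at hn
    rw [mul_comm] at hgr
    linarith
  have hWC : C < W := (le_max_left C B).trans_lt ((le_max_left _ _).trans_lt hW1)
  have hWB : B < W := (le_max_right C B).trans_lt ((le_max_left _ _).trans_lt hW1)
  have hW11 : 1 < W := (le_max_right _ _).trans_lt hW1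
  have hWp : 0 < W := by linarith
  have hle : ∀ j : ℤ, j ≤ R₁ → ‖w j‖ ≤ W := by
    intro j hj
    rcases le_or_gt j 0 with h | h
    · have h1 := hC j h
      have h2 : lam ^ j ≤ 1 := zpow_le_one_of_nonpos₀ hl.le h
      have h3 : 0 < lam ^ j := zpow_pos h0 j
      have hCn : 0 ≤ C := by
        have h4 := hC 0 le_rfl
        simp only [zpow_zero, mul_one] at h4
        exact (norm_nonneg _).trans h4
      have h5 : C * lam ^ j ≤ C := mul_le_of_le_one_right hCn h2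
      linarith
    · rcases le_or_gt j j₁ with h' | h'
      · exact (hB j (mem_Icc.2 ⟨h.le, h'⟩)).trans hWB.le
      · obtain ⟨k, hk⟩ := Int.eq_ofNat_of_zero_le (show 0 ≤ (R₁ : ℤ) - j by omega)
        have h6 := avo_grow hl hg j (by omega) k
        have e : j + (k : ℤ) = R₁ := by omega
        rw [e] at h6
        have h7 : 1 ≤ lam ^ k := one_le_pow₀ hl.le
        have h8 : ‖w j‖ ≤ lam ^ k * ‖w j‖ := le_mul_of_one_le_left (norm_nonneg _) h7
        exact h8.trans h6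
  obtain ⟨M, hM1, hM2, hM3⟩ := hCON lam hl (max 32 (4096 * K)) (R₁ + 1)
  set m : ℕ := M + R₁ with hm
  set N : ℕ := 2 * M + (R₁ + 1) + 1 with hN
  obtain ⟨hq1, hq2⟩ := avo_qq_le (show m + 1 ≤ N by omega)
  have hN6 : (0 : ℝ) < (N : ℝ) ^ 6 := by
    have : (0 : ℝ) < N := by exact_mod_cast (by omega : 0 < N)
    positivity
  have hqM : qq m ≤ lam ^ M := by
    have h1 : 32 * (N : ℝ) ^ 6 ≤ max 32 (4096 * K) * (N : ℝ) ^ 6 :=
      mul_le_mul_of_nonneg_right (le_max_left _ _) hN6.le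
    linarith
  have hqp := avo_qq_pos m
  set μ : ℝ := 1 / (4 * qq m ^ 2) with hμ
  have hμ0 : 0 < μ := by positivity
  have hKμ : K ≤ μ * lam ^ M := by
    have h1 : 4096 * K * (N : ℝ) ^ 6 ≤ max 32 (4096 * K) * (N : ℝ) ^ 6 :=
      mul_le_mul_of_nonneg_right (le_max_right _ _) hN6.le
    have h2 : 4096 * K * (N : ℝ) ^ 6 ≤ lam ^ M := h1.trans hM3
    rcases le_or_gt K 0 with hK | hK
    · have : 0 < μ * lam ^ M := by positivity
      linarith
    · rw [hμ, div_mul_eq_mul_div, one_mul, le_div_iff₀ (by positivity)]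
      have h3 : K * (4 * qq m ^ 2) ≤ K * (4 * (1024 * (N : ℝ) ^ 6)) := by gcongr
      linarith
  set S₀ : Finset ℤ := (Finset.Ioc (-(M : ℤ)) R₁).filter (fun j => j ≠ 0) with hS₀
  obtain ⟨δ, hδ0, hδ⟩ := avo_pos_le S₀ (fun j => ‖w j‖ / (4 * qq m * W)) (by
    intro j hj
    have hj' := (mem_filter.1 hj).2
    have := norm_pos_iff.2 (hw0 j hj')
    positivity)
  refine ⟨μ, min δ μ, M, R₁, lt_min hδ0 hμ0, min_le_right _ _, hKμ, ?_⟩
  intro φ J
  have hcard : S₀.card ≤ m := by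
    refine (card_filter_le _ _).trans ?_
    rw [Int.card_Ioc]
    omega
  obtain ⟨z, hz1, hz2, hz3⟩ := hGEN m ℤ S₀ (Finset.Ioc (R₁ : ℤ) J) φ w W hWp hcard
    (by
      intro j hj
      obtain ⟨h1, h2⟩ := mem_filter.1 hj
      exact ⟨hw0 j h2, hle j (mem_Ioc.1 h1).2⟩)
    (by
      intro j hj
      obtain ⟨h1, h2⟩ := mem_Ioc.1 hj
      obtain ⟨k, hk⟩ := Int.eq_ofNat_of_zero_le (show 0 ≤ j - (R₁ : ℤ) by omega)
      have h6 := avo_grow hl hg (R₁ : ℤ) (by omega) k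
      have e : (R₁ : ℤ) + (k : ℤ) = j := by omega
      rw [e] at h6
      have hk0 : k ≠ 0 := by omega
      have h7 : 1 < lam ^ k := one_lt_pow₀ hl hk0
      have h8 : W < lam ^ k * W := lt_mul_of_one_lt_left hWp h7
      exact h8.trans_le h6)
    (by
      intro X hX
      refine (avo_block hl hg _ ?_ (X := X) (q := qq m) (M := M) ?_ ?_ (by linarith) hqM).trans
        (by omega)
      · intro j hj
        have := (mem_Ioc.1 (mem_filter.1 hj).1).1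
        omega
      · intro j hj
        exact (mem_filter.1 hj).2.1
      · intro j hj
        exact (mem_filter.1 hj).2.2)
  refine ⟨z, ?_, ?_, ?_⟩
  · refine hz1.trans ?_
    rw [div_le_one (by positivity)]
    linarith
  · intro j h1 h2 h3
    have hj : j ∈ S₀ := mem_filter.2 ⟨mem_Ioc.2 ⟨h1, h2⟩, h3⟩
    exact (min_le_left _ _).trans ((hδ j hj).trans (hz2 j hj))
  · intro j h1 h2
    exact hz3 j (mem_Ioc.2 ⟨h1, h2⟩)

end Pool.LSP
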