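import Pool.Agent.H34.LSP.AVO

/-!
# LSP: two-sided avoidance
-/

set_option autoImplicit false

namespace Pool.LSP

open Finset

theorem avt_far {w : ℤ → ℂ} {lam : ℝ} {j₁ : ℤ} (hl : 1 < lam)
    (hg : ∀ j, j₁ ≤ j → lam * ‖w j‖ ≤ ‖w (j + 1)‖) (hw : w j₁ ≠ 0) (W : ℝ) :
    ∃ n : ℕ, ∀ j : ℤ, j₁ + n ≤ j → W < ‖w j‖ := by
  have hwp : 0 < ‖w j₁‖ := norm_pos_iff.2 hw
  obtain ⟨n, hn⟩ := pow_unbounded_of_one_lt (W / ‖w j₁‖) hl
  rw [div_lt_iff₀ hwp] at hn
  refine ⟨n, fun j hj => ?_⟩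
  obtain ⟨k, hk⟩ := Int.eq_ofNat_of_zero_le (show 0 ≤ j - j₁ by omega)
  have h := avo_grow hl hg j₁ le_rfl k
  have e : j₁ + (k : ℤ) = j := by omega
  rw [e] at h
  have hnk : n ≤ k := by omega
  have h4 : lam ^ n ≤ lam ^ k := pow_le_pow_right₀ hl.le hnk
  have h5 : lam ^ n * ‖w j₁‖ ≤ lam ^ k * ‖w j₁‖ := by gcongr
  linarith

theorem t_avt (hGEN : GENStmt) (hCON : CONStmt) : AVTStmt := by
  classical
  intro w lam j₀ hl hw0 hg
  have h0 : 0 < lam := by linarith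
  obtain ⟨j₁, hj₁, hj₁'⟩ : ∃ j₁ : ℕ, j₀ ≤ j₁ ∧ 1 ≤ j₁ := ⟨max j₀.toNat 1, by omega, by omega⟩
  have hg1 : ∀ j, (j₁ : ℤ) ≤ j → lam * ‖w j‖ ≤ ‖w (j + 1)‖ := fun j hj => (hg j (by omega)).1
  have hg2 : ∀ j, (j₁ : ℤ) ≤ j → lam * ‖(fun i => w (-i)) j‖ ≤ ‖(fun i => w (-i)) (j + 1)‖ :=
    fun j hj => (hg j (by omega)).2
  obtain ⟨B, hB0, hB⟩ := avo_ge_mem (Finset.Icc (-(j₁ : ℤ)) j₁) (fun j => ‖w j‖)
  set W : ℝ := max B 1 with hW
  have hWp : 0 < W := lt_of_lt_of_le one_pos (le_max_right _ _)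
  have hnear : ∀ j : ℤ, W < ‖w j‖ → j < -(j₁ : ℤ) ∨ (j₁ : ℤ) < j := by
    intro j hj
    by_contra hc
    push Not at hc
    have h := hB j (mem_Icc.2 hc)
    have h' : B ≤ W := le_max_left _ _
    linarith
  obtain ⟨n₁, hn₁⟩ := avt_far hl hg1 (hw0 _ (by omega)) W
  obtain ⟨n₂, hn₂⟩ := avt_far (w := fun i => w (-i)) hl hg2 (hw0 _ (by omega)) W
  set N : ℕ := j₁ + n₁ + n₂ with hN
  have hfar : ∀ j : ℤ, ‖w j‖ ≤ W → -(N : ℤ) ≤ j ∧ j ≤ N := by
    intro j hj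
    constructor
    · by_contra hc
      push Not at hc
      have h := hn₂ (-j) (by omega)
      simp only [neg_neg] at h
      linarith
    · by_contra hc
      push Not at hc
      have h := hn₁ j (by omega)
      linarith
  obtain ⟨M, hM1, hM2, hM3⟩ := hCON lam hl 32 (2 * N + 1)
  set m : ℕ := 2 * M with hm
  obtain ⟨hq1, hq2⟩ := avo_qq_le (show m + 1 ≤ 2 * M + (2 * N + 1) + 1 by omega)
  have hqM : qq m ≤ lam ^ M := hq1.trans hM3
  have hqp := avo_qq_pos m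
  set Z₀ : Finset ℤ := (Finset.Icc (-(N : ℤ)) N).filter (fun j => j ≠ 0) with hZ₀
  obtain ⟨δ, hδ0, hδ⟩ := avo_pos_le Z₀ (fun j => ‖w j‖ / (4 * qq m * W)) (by
    intro j hj
    have hj' := (mem_filter.1 hj).2
    have := norm_pos_iff.2 (hw0 j hj')
    positivity)
  refine ⟨min δ (1 / (4 * qq m ^ 2)), lt_min hδ0 (by positivity), ?_⟩
  intro φ J
  set S₀ : Finset ℤ := (Finset.Icc (-(J : ℤ)) J).filter (fun j => j ≠ 0 ∧ ‖w j‖ ≤ W) with hS₀
  set S₁ : Finset ℤ := (Finset.Icc (-(J : ℤ)) J).filter (fun j => j ≠ 0 ∧ W < ‖w j‖) with hS₁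
  have hsub : S₀ ⊆ Z₀ := by
    intro j hj
    obtain ⟨h1, h2, h3⟩ := mem_filter.1 hj
    exact mem_filter.2 ⟨mem_Icc.2 (hfar j h3), h2⟩
  have hcard : S₀.card ≤ m := by
    refine (card_le_card hsub).trans ((card_filter_le _ _).trans ?_)
    rw [Int.card_Icc]
    omega
  obtain ⟨z, hz1, hz2, hz3⟩ := hGEN m ℤ S₀ S₁ φ w W hWp hcard
    (by
      intro j hj
      obtain ⟨h1, h2, h3⟩ := mem_filter.1 hj
      exact ⟨hw0 j h2, h3⟩)
    (by
      intro j hj
      exact (mem_filter.1 hj).2.2)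
    (by
      intro X hX
      set F : Finset ℤ := S₁.filter (fun i => X < ‖w i‖ ∧ ‖w i‖ ≤ qq m * X) with hF
      have hF1 : (F.filter (fun j => 0 < j)).card ≤ M := by
        refine avo_block hl hg1 _ ?_ (X := X) (q := qq m) (M := M) ?_ ?_ (by linarith) hqM
        · intro j hj
          obtain ⟨h1, h2⟩ := mem_filter.1 hj
          obtain ⟨h3, h4⟩ := mem_filter.1 h1
          have h5 := hnear j ((mem_filter.1 h3).2.2)
          omega
        · intro j hj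
          exact (mem_filter.1 (mem_filter.1 hj).1).2.1
        · intro j hj
          exact (mem_filter.1 (mem_filter.1 hj).1).2.2
      have hF2 : ((F.filter (fun j => ¬ 0 < j)).image (fun j => -j)).card ≤ M := by
        refine avo_block (w := fun i => w (-i)) hl hg2 _ ?_ (X := X) (q := qq m) (M := M) ?_ ?_
          (by linarith) hqM
        · intro j hj
          obtain ⟨i, hi, rfl⟩ := mem_image.1 hj
          obtain ⟨h1, h2⟩ := mem_filter.1 hi
          obtain ⟨h3, h4⟩ := mem_filter.1 h1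
          have h5 := hnear i ((mem_filter.1 h3).2.2)
          omega
        · intro j hj
          obtain ⟨i, hi, rfl⟩ := mem_image.1 hj
          simp only [neg_neg]
          exact (mem_filter.1 (mem_filter.1 hi).1).2.1
        · intro j hj
          obtain ⟨i, hi, rfl⟩ := mem_image.1 hj
          simp only [neg_neg]
          exact (mem_filter.1 (mem_filter.1 hi).1).2.2
      rw [card_image_of_injective _ neg_injective] at hF2
      have h := card_filter_add_card_filter_not (s := F) (fun j => 0 < j)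
      omega)
  refine ⟨z, ?_⟩
  intro j hj hjJ
  rw [abs_le] at hjJ
  rcases le_or_gt (‖w j‖) W with h | h
  · have hj' : j ∈ S₀ := mem_filter.2 ⟨mem_Icc.2 hjJ, hj, h⟩
    exact (min_le_left _ _).trans ((hδ j (hsub hj')).trans (hz2 j hj'))
  · exact (min_le_right _ _).trans (hz3 j (mem_filter.2 ⟨mem_Icc.2 hjJ, hj, h⟩))

end Pool.LSP
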