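import Pool.Agent.H85.LSP.Nr

/-!
# LSP: Lagrange weights
-/

set_option autoImplicit false

namespace Pool.LSP

open Polynomial Finset
open scoped ComplexConjugate

theorem t_eul : EULStmt := by
  classical
  intro S
  refine ⟨fun α => ∏ β ∈ S.erase α, (α - β)⁻¹, ?_, ?_, ?_⟩
  · intro α _
    rw [prod_ne_zero_iff]
    intro β hβ
    exact inv_ne_zero (sub_ne_zero.2 (ne_of_mem_erase hβ).symm)
  · intro α hS
    have hm : ∀ β ∈ S, conj β ∈ S := by
      intro β hβ
      rw [← hS]
      exact mem_image_of_mem _ hβ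
    rw [map_prod]
    refine prod_bij (fun β _ => conj β) ?_ ?_ ?_ ?_
    · intro β hβ
      rw [mem_erase] at hβ ⊢
      refine ⟨fun h => hβ.1 ?_, hm β hβ.2⟩
      rw [← h, Complex.conj_conj]
    · intro β _ β' _ h
      have h' := congrArg (starRingEnd ℂ) h
      simpa using h'
    · intro β hβ
      rw [mem_erase] at hβ
      refine ⟨conj β, ?_, Complex.conj_conj β⟩
      rw [mem_erase]
      refine ⟨fun h => hβ.1 ?_, hm β hβ.2⟩
      exact (starRingEnd ℂ).injective h
    · intro β _
      rw [map_inv₀, map_sub, Complex.conj_conj]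
  · intro k hk
    have hinj : Set.InjOn (fun x : ℂ => x) (S : Set ℂ) := fun _ _ _ _ h => h
    have hd : (X ^ k : ℂ[X]).degree < S.card := by
      rw [degree_X_pow]
      exact_mod_cast (by omega : k < S.card)
    have h := Lagrange.coeff_eq_sum hinj hd
    have e : ∑ α ∈ S, (∏ β ∈ S.erase α, (α - β)⁻¹) * α ^ k = (X ^ k : ℂ[X]).coeff (S.card - 1) := by
      rw [h]
      refine sum_congr rfl fun α _ => ?_
      rw [eval_pow, eval_X, div_eq_mul_inv, mul_comm, prod_inv_distrib]
    rw [e, coeff_X_pow]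
    congr 1
    apply propext
    omega

end Pool.LSP
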